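import Pool.Agent.H82.EUC.Stmts5

/-!
Board `euc`, row BND: the sizes of the coordinates.
-/

set_option autoImplicit false

namespace Pool.EUC

theorem bnd_thm : BND_S := by
  intro V E d n hd hV hE z
  have hP : (4 : ℤ) ^ (n + 5) = 1024 * 4 ^ n := by
    rw [pow_add]
    norm_num
    ring
  rw [hP]
  obtain ⟨b, i⟩ := z
  rcases b with v | e
  · have h1 := hV v
    have h2 := hd.X4 v
    have h3 := hd.L4 v
    have h4 := hd.LH v
    cases i <;> simp only [Dat.prefM, Dat.posM, Dat.prefW, Dat.posW] <;> omega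
  · have h1 := hE e
    have h2 := hd.Y4 e
    have h3 := hd.XL4 e
    have h4 := hd.XLR e
    cases i <;> simp only [Dat.prefM, Dat.posM, Dat.prefW, Dat.posW] <;> omega

end Pool.EUC
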